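import Pool.Agent.Y644.JW.Fin

/-!
# Simple polytopes have spanning walks which visit every vertex at most twice

Proof. The graph of a simple `d`-polytope is `d`-regular and, by Balinski's theorem, `d`-connected.
So it is 1-tough: every component of `G - S` has at least `d` neighbours in `S`. By the
Jackson-Wormald conjecture (`MP_36ad0d_co` `JacksonWormald`) 1-tough graphs have closed spanning walks
which visit every vertex at most twice.

Parts of the Lean proof: improving edges of polytopes (helper85), Balinski's theorem and toughness
(helper845), trees (helper371), perfect matchings (helper344), Euler circuits (helper591).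
-/

set_option autoImplicit false

namespace Pool.Agent.Results.MP_af8dfd_co.TwoVisits

/-- The graph of the convex hull of `S` (used when all points of `S` are vertices): two points of `S`
are adjacent if the segment between them is an (exposed) face. -/
noncomputable def polytopeGraph {d : ℕ} (S : Finset (EuclideanSpace ℝ (Fin d))) : SimpleGraph S :=
  SimpleGraph.fromRel (fun x y : S =>
    IsExposed ℝ (convexHull ℝ (S : Set (EuclideanSpace ℝ (Fin d))))
      (segment ℝ (x : EuclideanSpace ℝ (Fin d)) (y : EuclideanSpace ℝ (Fin d))))

/-- `G` has a spanning walk, and also a spanning closed walk, which visit no vertex more than twice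
(the visits of a closed walk are counted cyclically). -/
def TwoVisitWalks {V : Type} (G : SimpleGraph V) : Prop :=
  (∃ (u v : V) (q : G.Walk u v), ∀ w,
    1 ≤ {i : Fin (q.length + 1) | q.getVert i = w}.ncard ∧
    {i : Fin (q.length + 1) | q.getVert i = w}.ncard ≤ 2) ∧
  ∃ (v : V) (p : G.Walk v v), ∀ w,
    1 ≤ {i : Fin p.length | p.getVert (i + 1) = w}.ncard ∧
    {i : Fin p.length | p.getVert (i + 1) = w}.ncard ≤ 2

theorem aux {V : Type} (G : SimpleGraph V) (h : ∃ (v : V) (p : G.Walk v v), ∀ w,
    1 ≤ {i : Fin p.length | p.getVert (i + 1) = w}.ncard ∧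
    {i : Fin p.length | p.getVert (i + 1) = w}.ncard ≤ 2) : TwoVisitWalks G := by
  obtain ⟨v, p, hp⟩ := h
  have hlen : 0 < p.length := by
    by_contra h0
    have h1 := (hp v).1
    have h2 : {i : Fin p.length | p.getVert (i + 1) = v} = ∅ := by
      ext i
      exact absurd i.2 (by omega)
    rw [h2, Set.ncard_empty] at h1
    omega
  obtain ⟨u, w, q, hq⟩ := Pool.Agent.Y644.JW.open_walk p hlen
  exact ⟨⟨u, w, q, fun x => by rw [hq]; exact hp x⟩, v, p, hp⟩

/-- Let `P` be a simple `d`-polytope, `d ≥ 2`: the convex hull of a finite set `S` of points of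
`ℝ^d`, with nonempty interior, all points of `S` being vertices, such that every vertex lies on exactly
`d` edges. Then the graph of `P` has a spanning walk which visits no vertex more than twice, and even a
closed walk with this property. -/
theorem result (d : ℕ) (hd : 2 ≤ d) (S : Finset (EuclideanSpace ℝ (Fin d)))
    (hint : (interior (convexHull ℝ (S : Set (EuclideanSpace ℝ (Fin d))))).Nonempty)
    (hext : ∀ s ∈ S, s ∈ Set.extremePoints ℝ
      (convexHull ℝ (S : Set (EuclideanSpace ℝ (Fin d)))))
    (hsimple : ∀ v : S, ((polytopeGraph S).neighborSet v).ncard = d) :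
    TwoVisitWalks (polytopeGraph S) :=
  aux _ (Pool.Agent.Y644.JW.poly Pool.Agent.Y371.JW.cnt Pool.Agent.Y344.JW.Tut.tut
    Pool.Agent.Y591.JW.eul (Pool.Agent.Y845.JW.bal Pool.Agent.Y85.JW.imp)
    Pool.Agent.Y845.JW.tou d hd S hint hext hsimple)

end Pool.Agent.Results.MP_af8dfd_co.TwoVisits
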